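import Pool.Agent.helper41.HFE.Spec

/-! Row DUA of project HFE (MP_3221a1_ag): duality (pure linear algebra). -/

set_option autoImplicit false

open Polynomial Module Pool.Agent.HFN

namespace Pool.Agent.HFE

noncomputable section

theorem DUA_sep (Z : Finset (ℂ × ℂ)) (i j : ℕ) (x : AA)
    (hx : x ∉ (V i j ⊔ (JJ Z two).restrictScalars ℂ : Submodule ℂ AA)) : ∃ φ : AA →ₗ[ℂ] ℂ, Fu Z i j φ ∧ φ x ≠ 0 := by
  obtain ⟨φ, hφ, hk⟩ := Submodule.exists_le_ker_of_notMem hx
  refine ⟨φ, ⟨fun f hf => ?_, fun f hf => ?_⟩, hφ⟩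
  · exact hk (Submodule.mem_sup_right hf)
  · exact hk (Submodule.mem_sup_left hf)

theorem DUA : DUA_stmt := by
  constructor
  · intro Z i j f hf
    apply le_antisymm
    · refine sup_le le_sup_left ?_
      intro x hx
      have hx' : x ∈ JJ Z two ⊔ Ideal.span {f} := hx
      obtain ⟨a, ha, b, hb, rfl⟩ := Submodule.mem_sup.1 hx'
      refine Submodule.add_mem _ (Submodule.mem_sup_right ha) ?_
      obtain ⟨g, rfl⟩ := Ideal.mem_span_singleton'.1 hb
      by_contra hne
      obtain ⟨φ, hφ, h1⟩ := DUA_sep Z i j _ hne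
      exact h1 (hf φ hφ g)
    · refine sup_le le_sup_left ?_
      intro x hx
      refine Submodule.mem_sup_right ?_
      have hx' : x ∈ JJ Z two := hx
      show x ∈ JJ Z two ⊔ Ideal.span {f}
      exact Submodule.mem_sup_left hx'
  · intro Z i j h
    rw [Submodule.eq_top_iff']
    intro x
    by_contra hne
    obtain ⟨φ, hφ, h1⟩ := DUA_sep Z i j x hne
    rw [h φ hφ] at h1
    exact h1 rfl

end

end Pool.Agent.HFE
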